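import Mathlib

/-!
# Most integers are of the form `⌊m ^ 2 / a⌋`, `m` in a set `K ⊆ [N, 2 N]`

Second moment in `v = 1 / t` of `∑ m ∈ K, (|∑ h < H, e (h m ^ 2 v)| ^ 2 - H)`.
-/

set_option autoImplicit false

open Finset Complex
open scoped Real

namespace Pool.Agent.Helper87.QS

/-- `e (X v)` -/
noncomputable def ee (X : ℤ) (v : ℝ) : ℂ := Complex.exp (2 * π * I * X * v)

theorem ee_cont (X : ℤ) : Continuous (ee X) := by
  unfold ee
  fun_prop

theorem norm_ee (X : ℤ) (v : ℝ) : ‖ee X v‖ = 1 := by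
  unfold ee
  rw [Complex.norm_exp]
  have : (2 * (π : ℂ) * I * X * v).re = 0 := by
    have h1 : 2 * (π : ℂ) * I * X * v = ((2 * π * X * v : ℝ) : ℂ) * I := by
      push_cast
      ring
    rw [h1, Complex.re_ofReal_mul, Complex.I_re, mul_zero]
  rw [this, Real.exp_zero]

theorem ee_mul_conj (X Y : ℤ) (v : ℝ) : ee X v * (starRingEnd ℂ) (ee Y v) = ee (X - Y) v := by
  unfold ee
  rw [← Complex.exp_conj, ← Complex.exp_add]
  congr 1
  simp only [map_mul, Complex.conj_ofReal, Complex.conj_I, map_intCast, map_ofNat]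
  push_cast
  ring

/-- the bound for the integral -/
noncomputable def Bd (V : ℝ) (X : ℤ) : ℝ := if X = 0 then V else min V (1 / (π * |(X : ℝ)|))

theorem Bd_le (V : ℝ) (X : ℤ) : Bd V X ≤ V := by
  unfold Bd
  split_ifs
  · exact le_rfl
  · exact min_le_left _ _

theorem Bd_le' (V : ℝ) {X : ℤ} (hX : X ≠ 0) : Bd V X ≤ 1 / (π * |(X : ℝ)|) := by
  unfold Bd
  rw [if_neg hX]
  exact min_le_right _ _

theorem int_ee (X : ℤ) {a b : ℝ} (hab : a ≤ b) : ‖∫ v in a..b, ee X v‖ ≤ Bd (b - a) X := by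
  have h1 : ‖∫ v in a..b, ee X v‖ ≤ b - a := by
    have := intervalIntegral.norm_integral_le_of_norm_le_const (a := a) (b := b) (C := 1)
      (f := ee X) (fun v _ => (norm_ee X v).le)
    rwa [one_mul, abs_of_nonneg (by linarith)] at this
  unfold Bd
  split_ifs with hX
  · exact h1
  · refine le_min h1 ?_
    have hX' : (X : ℂ) ≠ 0 := by exact_mod_cast hX
    have hc : 2 * (π : ℂ) * I * X ≠ 0 := by
      have : (π : ℂ) ≠ 0 := by exact_mod_cast Real.pi_ne_zero
      simp [this, hX', Complex.I_ne_zero]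
    have h2 : (∫ v in a..b, ee X v) = (ee X b - ee X a) / (2 * (π : ℂ) * I * X) := by
      unfold ee
      exact integral_exp_mul_complex hc
    rw [h2, norm_div]
    have h3 : ‖2 * (π : ℂ) * I * X‖ = 2 * (π * |(X : ℝ)|) := by
      rw [norm_mul, norm_mul, norm_mul, Complex.norm_I, Complex.norm_real, Real.norm_eq_abs,
        abs_of_pos Real.pi_pos, Complex.norm_intCast, Complex.norm_ofNat]
      ring
    have hXabs : 0 < |(X : ℝ)| := abs_pos.2 (by exact_mod_cast hX)
    have h4 : ‖ee X b - ee X a‖ ≤ 2 := by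
      refine (norm_sub_le _ _).trans ?_
      rw [norm_ee, norm_ee]
      norm_num
    rw [h3, div_le_div_iff₀ (by positivity) (by positivity), one_mul]
    have : 0 < π * |(X : ℝ)| := by positivity
    nlinarith

theorem second_moment {ι : Type*} (P : Finset ι) (x : ι → ℤ) {a b : ℝ} (hab : a ≤ b) :
    ∫ v in a..b, ‖∑ p ∈ P, ee (x p) v‖ ^ 2 ≤ ∑ p ∈ P, ∑ q ∈ P, Bd (b - a) (x p - x q) := by
  have h1 : ((∫ v in a..b, ‖∑ p ∈ P, ee (x p) v‖ ^ 2 : ℝ) : ℂ) =
      ∑ p ∈ P, ∑ q ∈ P, ∫ v in a..b, ee (x p - x q) v := by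
    rw [← intervalIntegral.integral_ofReal]
    have h2 : ∀ v : ℝ, ((‖∑ p ∈ P, ee (x p) v‖ ^ 2 : ℝ) : ℂ) =
        ∑ p ∈ P, ∑ q ∈ P, ee (x p - x q) v := by
      intro v
      push_cast
      rw [← Complex.mul_conj', map_sum, sum_mul_sum]
      refine sum_congr rfl fun p _ => sum_congr rfl fun q _ => ?_
      exact ee_mul_conj _ _ _
    have h3 : (fun v : ℝ => ((‖∑ p ∈ P, ee (x p) v‖ ^ 2 : ℝ) : ℂ)) =
        fun v => ∑ p ∈ P, ∑ q ∈ P, ee (x p - x q) v := funext h2
    rw [h3, intervalIntegral.integral_finset_sum]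
    · refine sum_congr rfl fun p _ => ?_
      rw [intervalIntegral.integral_finset_sum]
      intro q _
      exact (ee_cont _).intervalIntegrable _ _
    · intro p _
      exact (continuous_finset_sum _ fun q _ => ee_cont _).intervalIntegrable _ _
  have h4 : 0 ≤ ∫ v in a..b, ‖∑ p ∈ P, ee (x p) v‖ ^ 2 :=
    intervalIntegral.integral_nonneg hab fun v _ => by positivity
  have h5 : ∫ v in a..b, ‖∑ p ∈ P, ee (x p) v‖ ^ 2 =
      ‖((∫ v in a..b, ‖∑ p ∈ P, ee (x p) v‖ ^ 2 : ℝ) : ℂ)‖ := by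
    rw [Complex.norm_real, Real.norm_eq_abs, abs_of_nonneg h4]
  rw [h5, h1]
  refine (norm_sum_le _ _).trans (sum_le_sum fun p _ => (norm_sum_le _ _).trans
    (sum_le_sum fun q _ => int_ee _ hab))

/-- the sum over separated frequencies -/
theorem spaced (K : Finset ℕ) (f : ℕ → ℤ) {N : ℕ} (hN : 0 < N)
    (hsp : ∀ m ∈ K, ∀ m' ∈ K, m ≠ m' → (N : ℤ) ≤ |f m - f m'|) (J : ℕ)
    (hJ : ∀ m ∈ K, (f m).natAbs < N * (J + 1)) {V : ℝ} (hV : 0 ≤ V) :
    ∑ m ∈ K, Bd V (f m) ≤ 2 * V + 2 / (π * N) * (1 + Real.log J) := by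
  classical
  have hNR : (0 : ℝ) < N := by exact_mod_cast hN
  obtain ⟨B, hB⟩ : ∃ B : ℕ → ℝ, ∀ j, B j = if j = 0 then V else 1 / (π * N * j) := ⟨_, fun _ => rfl⟩
  have hB0 : ∀ j, 0 ≤ B j := fun j => by
    rw [hB]
    split_ifs
    · exact hV
    · positivity
  have h1 : ∀ m ∈ K, Bd V (f m) ≤ B ((f m).natAbs / N) := by
    intro m _
    rw [hB]
    split_ifs with h
    · exact Bd_le _ _
    · have hne : f m ≠ 0 := by
        intro h0
        apply h
        rw [h0, Int.natAbs_zero, Nat.zero_div]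
      refine (Bd_le' V hne).trans ?_
      have h2 : (N : ℝ) * ((f m).natAbs / N : ℕ) ≤ |(f m : ℝ)| := by
        have h3 : N * ((f m).natAbs / N) ≤ (f m).natAbs := Nat.mul_div_le _ _
        have h4 : ((N * ((f m).natAbs / N) : ℕ) : ℝ) ≤ ((f m).natAbs : ℝ) := by exact_mod_cast h3
        rw [Nat.cast_mul] at h4
        refine h4.trans (le_of_eq ?_)
        rw [Nat.cast_natAbs, Int.cast_abs]
      have h5 : (0 : ℝ) < ((f m).natAbs / N : ℕ) := by
        have : 0 < (f m).natAbs / N := Nat.pos_of_ne_zero h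
        exact_mod_cast this
      refine one_div_le_one_div_of_le (by positivity) ?_
      rw [mul_assoc]
      exact mul_le_mul_of_nonneg_left h2 Real.pi_pos.le
  refine (sum_le_sum h1).trans ?_
  have hmaps : ∀ m ∈ K, (f m).natAbs / N ∈ range (J + 1) := by
    intro m hm
    rw [mem_range]
    exact Nat.div_lt_of_lt_mul (hJ m hm)
  rw [← sum_fiberwise_of_maps_to hmaps]
  have h6 : ∀ j ∈ range (J + 1), ∑ m ∈ K with (f m).natAbs / N = j, B ((f m).natAbs / N) ≤
      2 * B j := by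
    intro j _
    have e1 : ∑ m ∈ K with (f m).natAbs / N = j, B ((f m).natAbs / N) =
        #(K.filter fun m => (f m).natAbs / N = j) * B j := by
      rw [sum_congr rfl fun m hm => by rw [(mem_filter.1 hm).2], sum_const, nsmul_eq_mul]
    rw [e1]
    refine mul_le_mul_of_nonneg_right ?_ (hB0 j)
    have e2 : #(K.filter fun m => (f m).natAbs / N = j) ≤ 2 := by
      rw [← card_filter_add_card_filter_not (s := K.filter fun m => (f m).natAbs / N = j)
        (fun m => 0 ≤ f m)]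
      have e3 : ∀ m m' : ℕ, (f m).natAbs / N = j → (f m').natAbs / N = j →
          ((0 ≤ f m ∧ 0 ≤ f m') ∨ (¬ 0 ≤ f m ∧ ¬ 0 ≤ f m')) → |f m - f m'| < N := by
        intro m m' a1 a2 a3
        have b1 : N * j ≤ (f m).natAbs := by rw [← a1]; exact Nat.mul_div_le _ _
        have b2 : N * j ≤ (f m').natAbs := by rw [← a2]; exact Nat.mul_div_le _ _
        have b3 : (f m).natAbs < N * j + N := by
          have := Nat.lt_mul_div_succ (f m).natAbs hN
          rw [a1] at this
          linarith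
        have b4 : (f m').natAbs < N * j + N := by
          have := Nat.lt_mul_div_succ (f m').natAbs hN
          rw [a2] at this
          linarith
        obtain ⟨L, hL⟩ : ∃ L, L = N * j := ⟨_, rfl⟩
        rw [← hL] at b1 b2 b3 b4
        rw [abs_lt]
        omega
      have e4 : #((K.filter fun m => (f m).natAbs / N = j).filter fun m => 0 ≤ f m) ≤ 1 := by
        rw [card_le_one]
        intro m hm m' hm'
        rw [mem_filter, mem_filter] at hm hm'
        by_contra hne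
        have := hsp m hm.1.1 m' hm'.1.1 hne
        have := e3 m m' hm.1.2 hm'.1.2 (Or.inl ⟨hm.2, hm'.2⟩)
        omega
      have e5 : #((K.filter fun m => (f m).natAbs / N = j).filter fun m => ¬ 0 ≤ f m) ≤ 1 := by
        rw [card_le_one]
        intro m hm m' hm'
        rw [mem_filter, mem_filter] at hm hm'
        by_contra hne
        have := hsp m hm.1.1 m' hm'.1.1 hne
        have := e3 m m' hm.1.2 hm'.1.2 (Or.inr ⟨hm.2, hm'.2⟩)
        omega
      omega
    exact_mod_cast e2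
  refine (sum_le_sum h6).trans ?_
  rw [sum_range_succ', hB 0, if_pos rfl]
  have h7 : ∑ j ∈ range J, 2 * B (j + 1) = 2 / (π * N) * ((harmonic J : ℚ) : ℝ) := by
    rw [harmonic]
    push_cast
    rw [mul_sum]
    refine sum_congr rfl fun j _ => ?_
    rw [hB, if_neg (Nat.succ_ne_zero j)]
    push_cast
    have : (0 : ℝ) < (j : ℝ) + 1 := by positivity
    field_simp
  rw [h7]
  have h8 := harmonic_le_one_add_log J
  have h9 : (0 : ℝ) ≤ 2 / (π * N) := by positivity
  have := mul_le_mul_of_nonneg_left h8 h9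
  linarith

/-- geometric sums -/
theorem geo (x η : ℝ) (hη : 0 < η) (hx : ∀ a : ℤ, η < |x - a|) (H : ℕ) :
    ‖∑ h ∈ range H, Complex.exp (2 * π * I * x) ^ h‖ ≤ 1 / (2 * η) := by
  obtain ⟨y, hy⟩ : ∃ y : ℝ, y = x - round x := ⟨_, rfl⟩
  have hy1 : |y| ≤ 1 / 2 := by
    rw [hy]
    exact abs_sub_round x
  have hy2 : η < |y| := by
    rw [hy]
    exact hx _
  have hexp : Complex.exp (2 * π * I * x) = Complex.exp (I * ((2 * π * y : ℝ) : ℂ)) := by
    have h1 : 2 * (π : ℂ) * I * x = I * ((2 * π * y : ℝ) : ℂ) + (round x : ℤ) * (2 * π * I) := by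
      rw [hy]
      push_cast
      ring
    rw [h1, Complex.exp_add, Complex.exp_int_mul_two_pi_mul_I, mul_one]
  obtain ⟨z, hz⟩ : ∃ z : ℂ, z = Complex.exp (2 * π * I * x) := ⟨_, rfl⟩
  have hz1 : ‖z‖ = 1 := by
    rw [hz, hexp, mul_comm, Complex.norm_exp_ofReal_mul_I]
  have hz2 : 4 * η ≤ ‖z - 1‖ := by
    rw [hz, hexp, Complex.norm_exp_I_mul_ofReal_sub_one, Real.norm_eq_abs, abs_mul]
    have h2 : 2 * π * y / 2 = π * y := by ring
    rw [h2]
    have h3 := Real.mul_abs_le_abs_sin (x := π * y) (by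
      rw [abs_mul, abs_of_pos Real.pi_pos]
      nlinarith [Real.pi_pos])
    rw [abs_mul, abs_of_pos Real.pi_pos] at h3
    have h4 : 2 / π * (π * |y|) = 2 * |y| := by
      field_simp
    rw [h4] at h3
    rw [abs_of_pos (by norm_num : (0 : ℝ) < 2)]
    linarith
  rw [← hz]
  have hz3 : z ≠ 1 := by
    intro h
    rw [h, sub_self, norm_zero] at hz2
    linarith
  rw [geom_sum_eq hz3, norm_div]
  have h5 : ‖z ^ H - 1‖ ≤ 2 := by
    refine (norm_sub_le _ _).trans ?_
    rw [norm_pow, hz1, one_pow, norm_one]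
    norm_num
  rw [div_le_div_iff₀ (by linarith) (by positivity)]
  nlinarith

end Pool.Agent.Helper87.QS
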