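import Mathlib
import Pool.Agent.Helper87.QS.Nonhit

/-!
# Most integers are of the form `⌊m ^ 2 / a⌋`, `m` in a set `K ⊆ [N, 2 N]`: the count
-/

set_option autoImplicit false

open Finset Complex
open scoped Real

namespace Pool.Agent.Helper87.QS

/-- the integers of `[W, 2 W)` which are not of the form `⌊m ^ 2 / a⌋` -/
noncomputable def NH (K : Finset ℕ) (W : ℕ) : Finset ℕ := by
  classical
  exact (Ico W (2 * W)).filter fun w => ∀ m ∈ K, ∀ a : ℕ, 1 ≤ a → m ^ 2 / a ≠ w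

theorem mem_NH {K : Finset ℕ} {W w : ℕ} :
    w ∈ NH K W ↔ (W ≤ w ∧ w < 2 * W) ∧ ∀ m ∈ K, ∀ a : ℕ, 1 ≤ a → m ^ 2 / a ≠ w := by
  classical
  unfold NH
  rw [mem_filter, mem_Ico]

/-- `m ^ 2 / t` is far from the integers if `⌊t⌋` is not hit by `m` -/
theorem far {N W m w : ℕ} (hN : 0 < N) (hW : 0 < W) (hm1 : N ≤ m) (hw1 : W ≤ w) (hw2 : w < 2 * W)
    (hno : ∀ a : ℕ, 1 ≤ a → m ^ 2 / a ≠ w) {v : ℝ} (hv1 : 1 / ((w : ℝ) + 3 / 4) ≤ v)
    (hv2 : v ≤ 1 / ((w : ℝ) + 1 / 4)) (a : ℤ) :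
    (N : ℝ) ^ 2 / (32 * (W : ℝ) ^ 2) < |(m : ℝ) ^ 2 * v - a| := by
  have hNR : (1 : ℝ) ≤ N := by exact_mod_cast hN
  have hWR : (1 : ℝ) ≤ W := by exact_mod_cast hW
  have hmR : (N : ℝ) ≤ m := by exact_mod_cast hm1
  have hwR : (W : ℝ) ≤ w := by exact_mod_cast hw1
  have hwR2 : (w : ℝ) + 1 ≤ 2 * W := by exact_mod_cast hw2
  by_contra hcon
  push Not at hcon
  have hv0 : 0 < v := lt_of_lt_of_le (by positivity) hv1
  obtain ⟨t, ht⟩ : ∃ t : ℝ, t = 1 / v := ⟨_, rfl⟩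
  have ht0 : 0 < t := by rw [ht]; positivity
  have hvt : v = 1 / t := by rw [ht, one_div_one_div]
  have ht1 : (w : ℝ) + 1 / 4 ≤ t := by
    rw [ht, le_div_iff₀ hv0]
    have := mul_le_mul_of_nonneg_left hv2 (by positivity : (0 : ℝ) ≤ (w : ℝ) + 1 / 4)
    rwa [mul_one_div_cancel (by positivity)] at this
  have ht2 : t ≤ (w : ℝ) + 3 / 4 := by
    rw [ht, div_le_iff₀ hv0]
    have := mul_le_mul_of_nonneg_left hv1 (by positivity : (0 : ℝ) ≤ (w : ℝ) + 3 / 4)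
    rwa [mul_one_div_cancel (by positivity)] at this
  have ht3 : t < 2 * W := by linarith
  obtain ⟨η, hη⟩ : ∃ η : ℝ, η = (N : ℝ) ^ 2 / (32 * (W : ℝ) ^ 2) := ⟨_, rfl⟩
  rw [← hη] at hcon
  rw [abs_le] at hcon
  obtain ⟨c1, c2⟩ := hcon
  -- `a > N ^ 2 / (4 W)`
  have hN2 : (N : ℝ) ^ 2 ≤ (m : ℝ) ^ 2 := pow_le_pow_left₀ (by linarith) hmR 2
  have h1 : (N : ℝ) ^ 2 / (2 * W) ≤ (m : ℝ) ^ 2 * v := by
    rw [hvt, mul_one_div, div_le_div_iff₀ (by positivity) ht0]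
    have : 0 < (N : ℝ) ^ 2 := by positivity
    nlinarith
  have h2 : η ≤ (N : ℝ) ^ 2 / (32 * W) := by
    rw [hη, div_le_div_iff₀ (by positivity) (by positivity)]
    have : 0 < (N : ℝ) ^ 2 := by positivity
    have h3 : (W : ℝ) ≤ W ^ 2 := by nlinarith
    nlinarith
  have h3 : (N : ℝ) ^ 2 / (4 * W) < a := by
    have e1 : (N : ℝ) ^ 2 / (2 * W) - (N : ℝ) ^ 2 / (32 * W) = 15 / 8 * ((N : ℝ) ^ 2 / (4 * W)) := by
      field_simp
      ring
    have e2 : 0 < (N : ℝ) ^ 2 / (4 * W) := by positivity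
    linarith
  have ha0 : (0 : ℝ) < a := lt_trans (by positivity) h3
  have haZ : 0 < a := by exact_mod_cast ha0
  obtain ⟨b, rfl⟩ := Int.eq_ofNat_of_zero_le haZ.le
  have hb : 1 ≤ b := by omega
  rw [Int.cast_natCast] at c1 c2 h3 ha0
  -- `|m ^ 2 / b - t| < 1 / 4`
  have h4 : η * t < b * (1 / 4) := by
    have e1 : η * t ≤ η * (2 * W) := mul_le_mul_of_nonneg_left ht3.le (by rw [hη]; positivity)
    have e2 : η * (2 * W) = (N : ℝ) ^ 2 / (4 * W) * (1 / 4) := by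
      rw [hη]
      field_simp
      norm_num
    rw [e2] at e1
    linarith
  have h5 : (m : ℝ) ^ 2 * v * t = (m : ℝ) ^ 2 := by
    rw [hvt]
    field_simp
  have h6 : (m : ℝ) ^ 2 ≤ b * t + η * t := by
    have := mul_le_mul_of_nonneg_right c2 ht0.le
    rw [sub_mul, h5] at this
    linarith
  have h7 : b * t - η * t ≤ (m : ℝ) ^ 2 := by
    have := mul_le_mul_of_nonneg_right c1 ht0.le
    rw [sub_mul, h5] at this
    linarith
  refine hno b hb ?_
  have h8 : (b : ℝ) * w ≤ (m : ℝ) ^ 2 := by nlinarith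
  have h9 : (m : ℝ) ^ 2 < b * (w + 1) := by nlinarith
  have h8' : w * b ≤ m ^ 2 := by
    have : ((b * w : ℕ) : ℝ) ≤ ((m ^ 2 : ℕ) : ℝ) := by
      push_cast
      exact h8
    rw [mul_comm]
    exact_mod_cast this
  have h9' : m ^ 2 < (w + 1) * b := by
    have : ((m ^ 2 : ℕ) : ℝ) < ((b * (w + 1) : ℕ) : ℝ) := by
      push_cast
      exact h9
    rw [mul_comm]
    exact_mod_cast this
  have h10 : w ≤ m ^ 2 / b := (Nat.le_div_iff_mul_le hb).2 h8'
  have h11 : m ^ 2 / b < w + 1 := (Nat.div_lt_iff_lt_mul hb).2 h9'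
  omega

/-- off-diagonal pairs -/
def OD (H : ℕ) : Finset (ℕ × ℕ) := (range H ×ˢ range H).filter fun p => p.1 ≠ p.2

theorem card_OD (H : ℕ) : #(OD H) ≤ H ^ 2 := by
  refine (card_filter_le _ _).trans ?_
  rw [card_product, card_range, sq]

/-- the frequencies -/
def xx (p : ℕ × (ℕ × ℕ)) : ℤ := ((p.2.1 : ℤ) - p.2.2) * (p.1 : ℤ) ^ 2

theorem sq_norm (H m : ℕ) (v : ℝ) :
    ∑ o ∈ OD H, ee (xx (m, o)) v =
      ((‖∑ h ∈ range H, Complex.exp (2 * π * I * ((m : ℝ) ^ 2 * v : ℝ)) ^ h‖ ^ 2 - H : ℝ) : ℂ) := by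
  classical
  have h0 : ∀ h : ℕ, Complex.exp (2 * π * I * ((m : ℝ) ^ 2 * v : ℝ)) ^ h =
      ee ((h : ℤ) * (m : ℤ) ^ 2) v := by
    intro h
    unfold ee
    rw [← Complex.exp_nat_mul]
    congr 1
    push_cast
    ring
  have h1 : ((‖∑ h ∈ range H, Complex.exp (2 * π * I * ((m : ℝ) ^ 2 * v : ℝ)) ^ h‖ ^ 2 : ℝ) : ℂ) =
      ∑ p ∈ range H ×ˢ range H, ee (xx (m, p)) v := by
    push_cast
    rw [← Complex.mul_conj', map_sum, sum_mul_sum, sum_product]
    refine sum_congr rfl fun p _ => sum_congr rfl fun q _ => ?_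
    have e1 := h0 p
    have e2 := h0 q
    push_cast at e1 e2
    rw [e1, e2, ee_mul_conj]
    unfold xx
    congr 1
    ring
  have h2 : ∑ p ∈ range H ×ˢ range H, ee (xx (m, p)) v =
      ∑ o ∈ OD H, ee (xx (m, o)) v + H := by
    rw [← sum_filter_add_sum_filter_not (range H ×ˢ range H) (fun p => p.1 ≠ p.2)]
    congr 1
    have e3 : ∀ p ∈ (range H ×ˢ range H).filter (fun p => ¬ p.1 ≠ p.2), ee (xx (m, p)) v = 1 := by
      intro p hp
      rw [mem_filter, not_not] at hp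
      unfold xx ee
      rw [hp.2]
      simp
    rw [sum_congr rfl e3, sum_const, nsmul_eq_mul, mul_one]
    have e4 : #((range H ×ˢ range H).filter (fun p => ¬ p.1 ≠ p.2)) = H := by
      have e5 : (range H ×ˢ range H).filter (fun p => ¬ p.1 ≠ p.2) =
          (range H).image (fun h => (h, h)) := by
        ext p
        rw [mem_filter, mem_product, mem_range, mem_range, not_not, mem_image]
        constructor
        · rintro ⟨⟨a1, a2⟩, a3⟩
          exact ⟨p.1, mem_range.2 a1, Prod.ext rfl a3⟩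
        · rintro ⟨h, a1, rfl⟩
          rw [mem_range] at a1
          exact ⟨⟨a1, a1⟩, rfl⟩
      rw [e5, card_image_of_injective _ (fun x y h => (Prod.ext_iff.1 h).1), card_range]
    rw [e4]
  rw [Complex.ofReal_sub, h1, h2]
  push_cast
  ring

/-- the second moment is small -/
theorem moment (N W H : ℕ) (hN : 0 < N) (hNW : N ≤ W) (hH0 : 0 < H) (K : Finset ℕ)
    (hK : ∀ m ∈ K, N ≤ m ∧ m ≤ 2 * N) :
    ∫ v in (1 / (2 * (W : ℝ)))..(1 / (W : ℝ)), ‖∑ p ∈ K ×ˢ OD H, ee (xx p) v‖ ^ 2 ≤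
      #K * (H : ℝ) ^ 4 * (2 / N * (1 + Real.log (8 * H * N : ℕ))) := by
  have hNR : (0 : ℝ) < N := by exact_mod_cast hN
  have hWR : (0 : ℝ) < W := by
    have : 0 < W := by omega
    exact_mod_cast this
  have hab : 1 / (2 * (W : ℝ)) ≤ 1 / (W : ℝ) :=
    one_div_le_one_div_of_le hWR (by linarith)
  refine (second_moment (K ×ˢ OD H) xx hab).trans ?_
  have hV : 1 / (W : ℝ) - 1 / (2 * (W : ℝ)) = 1 / (2 * W) := by
    field_simp
    norm_num
  rw [hV, sum_product]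
  obtain ⟨Q, hQ⟩ : ∃ Q : ℝ, Q = 2 / N * (1 + Real.log (8 * H * N : ℕ)) := ⟨_, rfl⟩
  rw [← hQ]
  have hlog : 0 ≤ Real.log (8 * H * N : ℕ) := Real.log_natCast_nonneg _
  have hQ0 : 0 ≤ Q := by rw [hQ]; positivity
  have key : ∀ m ∈ K, ∀ o ∈ OD H, ∑ q ∈ K ×ˢ OD H, Bd (1 / (2 * W)) (xx (m, o) - xx q) ≤
      (H : ℝ) ^ 2 * Q := by
    intro m hm o ho
    rw [sum_product, sum_comm]
    have h1 : ∀ o' ∈ OD H, ∑ m' ∈ K, Bd (1 / (2 * W)) (xx (m, o) - xx (m', o')) ≤ Q := by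
      intro o' ho'
      unfold OD at ho ho'
      rw [mem_filter, mem_product, mem_range, mem_range] at ho ho'
      have h2 := spaced K (fun m' => xx (m, o) - xx (m', o')) hN ?_ (8 * H * N) ?_
        (V := 1 / (2 * W)) (by positivity)
      · refine h2.trans ?_
        rw [hQ]
        have e1 : 2 * (1 / (2 * (W : ℝ))) ≤ 1 / N := by
          have : 2 * (1 / (2 * (W : ℝ))) = 1 / W := by field_simp
          rw [this]
          exact one_div_le_one_div_of_le hNR (by exact_mod_cast hNW)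
        have e2 : 2 / (π * N) ≤ 1 / N := by
          rw [div_le_div_iff₀ (by positivity) hNR]
          have := Real.pi_gt_three
          nlinarith
        have e3 := mul_le_mul_of_nonneg_right e2
          (by linarith : 0 ≤ 1 + Real.log (8 * H * N : ℕ))
        have e4 : 1 / (N : ℝ) ≤ 1 / N * (1 + Real.log (8 * H * N : ℕ)) := by
          have : 0 ≤ 1 / (N : ℝ) * Real.log (8 * H * N : ℕ) := by positivity
          linarith
        have e5 : 2 / (N : ℝ) * (1 + Real.log (8 * H * N : ℕ)) =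
            1 / N * (1 + Real.log (8 * H * N : ℕ)) + 1 / N * (1 + Real.log (8 * H * N : ℕ)) := by
          ring
        linarith
      · intro m1 hm1 m2 hm2 hne
        have e1 : (xx (m, o) - xx (m1, o')) - (xx (m, o) - xx (m2, o')) =
            ((o'.1 : ℤ) - o'.2) * (((m2 : ℤ) - m1) * ((m2 : ℤ) + m1)) := by
          unfold xx
          ring
        rw [e1, abs_mul, abs_mul]
        have e2 : 1 ≤ |(o'.1 : ℤ) - o'.2| := by
          have : (o'.1 : ℤ) - o'.2 ≠ 0 := by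
            have := ho'.2
            omega
          exact Int.one_le_abs this
        have e3 : 1 ≤ |(m2 : ℤ) - m1| := Int.one_le_abs (by omega)
        have e4 : (N : ℤ) ≤ |(m2 : ℤ) + m1| := by
          rw [abs_of_nonneg (by positivity)]
          have := (hK m1 hm1).1
          omega
        have hN0 : (0 : ℤ) ≤ N := by positivity
        calc (N : ℤ) = 1 * (1 * N) := by ring
          _ ≤ |(o'.1 : ℤ) - o'.2| * (|(m2 : ℤ) - m1| * |(m2 : ℤ) + m1|) := by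
            refine mul_le_mul e2 (mul_le_mul e3 e4 hN0 (abs_nonneg _)) (by positivity)
              (abs_nonneg _)
      · intro m' hm'
        have e1 : ∀ (m1 : ℕ) (p : ℕ × ℕ), m1 ≤ 2 * N → p.1 < H → p.2 < H →
            |xx (m1, p)| ≤ (H : ℤ) * (4 * N ^ 2) := by
          intro m1 p a1 a2 a3
          unfold xx
          rw [abs_mul]
          have b1 : |((p.1 : ℤ) - p.2)| ≤ H := by
            rw [abs_le]
            omega
          have b2 : |((m1 : ℤ) ^ 2)| ≤ 4 * (N : ℤ) ^ 2 := by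
            rw [abs_of_nonneg (by positivity)]
            have : (m1 : ℤ) ≤ 2 * N := by exact_mod_cast a1
            calc (m1 : ℤ) ^ 2 ≤ (2 * N) ^ 2 := pow_le_pow_left₀ (by positivity) this 2
              _ = 4 * (N : ℤ) ^ 2 := by ring
          exact mul_le_mul b1 b2 (abs_nonneg _) (by positivity)
        have e2 := e1 m o (hK m hm).2 ho.1.1 ho.1.2
        have e3 := e1 m' o' (hK m' hm').2 ho'.1.1 ho'.1.2
        have e4 : |xx (m, o) - xx (m', o')| ≤ 8 * H * N ^ 2 := by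
          refine (abs_sub _ _).trans ?_
          linarith
        have e5 : ((xx (m, o) - xx (m', o')).natAbs : ℤ) ≤ 8 * H * N ^ 2 := by
          rw [Int.natCast_natAbs]
          exact e4
        have e6 : (xx (m, o) - xx (m', o')).natAbs ≤ 8 * H * N ^ 2 := by exact_mod_cast e5
        calc (xx (m, o) - xx (m', o')).natAbs ≤ 8 * H * N ^ 2 := e6
          _ = N * (8 * H * N) := by ring
          _ < N * (8 * H * N + 1) := by
            have := Nat.mul_lt_mul_of_pos_left (show 8 * H * N < 8 * H * N + 1 by omega) hN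
            exact this
    calc ∑ o' ∈ OD H, ∑ m' ∈ K, Bd (1 / (2 * W)) (xx (m, o) - xx (m', o'))
        ≤ ∑ o' ∈ OD H, Q := sum_le_sum h1
      _ = #(OD H) * Q := by rw [sum_const, nsmul_eq_mul]
      _ ≤ (H : ℝ) ^ 2 * Q := by
        refine mul_le_mul_of_nonneg_right ?_ hQ0
        exact_mod_cast card_OD H
  calc ∑ m ∈ K, ∑ o ∈ OD H, ∑ q ∈ K ×ˢ OD H, Bd (1 / (2 * W)) (xx (m, o) - xx q)
      ≤ ∑ m ∈ K, ∑ o ∈ OD H, (H : ℝ) ^ 2 * Q :=
        sum_le_sum fun m hm => sum_le_sum fun o ho => key m hm o ho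
    _ = #K * (#(OD H) * ((H : ℝ) ^ 2 * Q)) := by
      rw [sum_const, sum_const, nsmul_eq_mul, nsmul_eq_mul]
    _ ≤ #K * ((H : ℝ) ^ 2 * ((H : ℝ) ^ 2 * Q)) := by
      refine mul_le_mul_of_nonneg_left (mul_le_mul_of_nonneg_right ?_ (by positivity))
        (Nat.cast_nonneg _)
      exact_mod_cast card_OD H
    _ = #K * (H : ℝ) ^ 4 * Q := by ring

/-- the sum is large on the intervals of the integers which are not hit -/
theorem large {N W H : ℕ} (hN : 0 < N) (hW : 0 < W) (hH : 512 * W ^ 4 ≤ H * N ^ 4) {K : Finset ℕ}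
    (hK : ∀ m ∈ K, N ≤ m) {w : ℕ} (hw : w ∈ NH K W) {v : ℝ} (hv1 : 1 / ((w : ℝ) + 3 / 4) ≤ v)
    (hv2 : v ≤ 1 / ((w : ℝ) + 1 / 4)) :
    (H * #K / 2 : ℝ) ^ 2 ≤ ‖∑ p ∈ K ×ˢ OD H, ee (xx p) v‖ ^ 2 := by
  have hNR : (0 : ℝ) < N := by exact_mod_cast hN
  have hWR : (0 : ℝ) < W := by exact_mod_cast hW
  rw [mem_NH] at hw
  obtain ⟨⟨hw1, hw2⟩, hno⟩ := hw
  rw [sum_product, sum_congr rfl fun m _ => sq_norm H m v, ← Complex.ofReal_sum,
    Complex.norm_real, Real.norm_eq_abs, sq_abs]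
  have h1 : ∀ m ∈ K, ‖∑ h ∈ range H, Complex.exp (2 * π * I * ((m : ℝ) ^ 2 * v : ℝ)) ^ h‖ ^ 2 - H ≤
      -(H / 2 : ℝ) := by
    intro m hm
    have h2 := geo ((m : ℝ) ^ 2 * v) ((N : ℝ) ^ 2 / (32 * (W : ℝ) ^ 2)) (by positivity)
      (fun a => far hN hW (hK m hm) hw1 hw2 (hno m hm) hv1 hv2 a) H
    have h3 := pow_le_pow_left₀ (norm_nonneg _) h2 2
    have h4 : (1 / (2 * ((N : ℝ) ^ 2 / (32 * (W : ℝ) ^ 2)))) ^ 2 ≤ H / 2 := by
      have e1 : (1 / (2 * ((N : ℝ) ^ 2 / (32 * (W : ℝ) ^ 2)))) ^ 2 =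
          512 * (W : ℝ) ^ 4 / N ^ 4 / 2 := by
        field_simp
        ring
      rw [e1]
      refine div_le_div_of_nonneg_right ?_ (by norm_num)
      rw [div_le_iff₀ (by positivity)]
      exact_mod_cast hH
    linarith
  have h5 : ∑ m ∈ K, (‖∑ h ∈ range H, Complex.exp (2 * π * I * ((m : ℝ) ^ 2 * v : ℝ)) ^ h‖ ^ 2 -
      (H : ℝ)) ≤ -(H * #K / 2 : ℝ) := by
    refine (sum_le_sum h1).trans (le_of_eq ?_)
    rw [sum_const, nsmul_eq_mul]
    ring
  have h6 : (0 : ℝ) ≤ H * #K / 2 := by positivity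
  nlinarith

/-- most integers are hit -/
theorem nonhit (N W H : ℕ) (hN : 0 < N) (hNW : N ≤ W) (hH : 512 * W ^ 4 ≤ H * N ^ 4)
    (K : Finset ℕ) (hKne : K.Nonempty) (hK : ∀ m ∈ K, N ≤ m ∧ m ≤ 2 * N) :
    (#(NH K W) : ℝ) * #K ≤
      64 * (W : ℝ) ^ 2 / N * (H : ℝ) ^ 2 * (1 + Real.log (8 * H * N : ℕ)) := by
  classical
  have hW : 0 < W := by omega
  have hNR : (0 : ℝ) < N := by exact_mod_cast hN
  have hWR : (1 : ℝ) ≤ W := by exact_mod_cast hW
  have hH0 : 0 < H := by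
    rcases Nat.eq_zero_or_pos H with h | h
    · rw [h, zero_mul] at hH
      have : 0 < 512 * W ^ 4 := by positivity
      omega
    · exact h
  have hHR : (0 : ℝ) < H := by exact_mod_cast hH0
  have hKR : (0 : ℝ) < #K := by exact_mod_cast hKne.card_pos
  obtain ⟨f, hf⟩ : ∃ f : ℝ → ℝ, ∀ v, f v = ‖∑ p ∈ K ×ˢ OD H, ee (xx p) v‖ ^ 2 := ⟨_, fun _ => rfl⟩
  have hfc : Continuous f := by
    have : f = fun v => ‖∑ p ∈ K ×ˢ OD H, ee (xx p) v‖ ^ 2 := funext hf
    rw [this]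
    exact (continuous_finsetSum _ fun q _ => ee_cont _).norm.pow 2
  have hf0 : ∀ v, 0 ≤ f v := fun v => by
    rw [hf]
    positivity
  have hup : ∫ v in (1 / (2 * (W : ℝ)))..(1 / (W : ℝ)), f v ≤
      #K * (H : ℝ) ^ 4 * (2 / N * (1 + Real.log (8 * H * N : ℕ))) := by
    have := moment N W H hN hNW hH0 K hK
    have e : f = fun v => ‖∑ p ∈ K ×ˢ OD H, ee (xx p) v‖ ^ 2 := funext hf
    rw [e]
    exact this
  obtain ⟨a, ha⟩ : ∃ a : ℕ → ℝ, ∀ k, a k = 1 / (2 * (W : ℝ) - k) := ⟨_, fun _ => rfl⟩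
  obtain ⟨c, hc⟩ : ∃ c : ℝ, c = (H * #K / 2 : ℝ) ^ 2 * (1 / (8 * (W : ℝ) ^ 2)) := ⟨_, rfl⟩
  have hc0 : 0 ≤ c := by rw [hc]; positivity
  have htel : ∑ k ∈ range W, ∫ v in a k..a (k + 1), f v =
      ∫ v in (1 / (2 * (W : ℝ)))..(1 / (W : ℝ)), f v := by
    rw [intervalIntegral.sum_integral_adjacent_intervals
      (fun k _ => hfc.intervalIntegrable _ _), ha 0, ha W]
    congr 2
    · push_cast
      ring
    · ring
  have hle : ∀ k < W, a k ≤ a (k + 1) := by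
    intro k hk
    have hkR : (k : ℝ) + 1 ≤ W := by exact_mod_cast hk
    rw [ha, ha]
    push_cast
    exact one_div_le_one_div_of_le (by linarith) (by linarith)
  have hpos : ∀ k ∈ range W, 0 ≤ ∫ v in a k..a (k + 1), f v := by
    intro k hk
    exact intervalIntegral.integral_nonneg (hle k (mem_range.1 hk)) fun v _ => hf0 v
  have hbig : ∀ k ∈ (range W).filter (fun k => 2 * W - 1 - k ∈ NH K W),
      c ≤ ∫ v in a k..a (k + 1), f v := by
    intro k hk
    rw [mem_filter, mem_range] at hk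
    obtain ⟨w, hw⟩ : ∃ w, w = 2 * W - 1 - k := ⟨_, rfl⟩
    rw [← hw] at hk
    have hwk : w + 1 + k = 2 * W := by omega
    have hwkR : (w : ℝ) + 1 + k = 2 * W := by exact_mod_cast hwk
    have hwW : W ≤ w := by omega
    have hwR : (W : ℝ) ≤ w := by exact_mod_cast hwW
    have hkR : (0 : ℝ) ≤ k := Nat.cast_nonneg k
    have e1 : a k = 1 / ((w : ℝ) + 1) := by
      rw [ha]
      congr 1
      linarith
    have e2 : a (k + 1) = 1 / (w : ℝ) := by
      rw [ha]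
      push_cast
      congr 1
      linarith
    rw [e1, e2]
    have g1 : 1 / ((w : ℝ) + 1) ≤ 1 / ((w : ℝ) + 3 / 4) :=
      one_div_le_one_div_of_le (by linarith) (by linarith)
    have g2 : 1 / ((w : ℝ) + 3 / 4) ≤ 1 / ((w : ℝ) + 1 / 4) :=
      one_div_le_one_div_of_le (by linarith) (by linarith)
    have g3 : 1 / ((w : ℝ) + 1 / 4) ≤ 1 / (w : ℝ) :=
      one_div_le_one_div_of_le (by linarith) (by linarith)
    have g4 : ∫ v in (1 / ((w : ℝ) + 3 / 4))..(1 / ((w : ℝ) + 1 / 4)), f v ≤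
        ∫ v in (1 / ((w : ℝ) + 1))..(1 / (w : ℝ)), f v :=
      intervalIntegral.integral_mono_interval g1 g2 g3
        (Filter.Eventually.of_forall fun v => hf0 v) (hfc.intervalIntegrable _ _)
    refine le_trans ?_ g4
    have g5 : ∫ _ in (1 / ((w : ℝ) + 3 / 4))..(1 / ((w : ℝ) + 1 / 4)), (H * #K / 2 : ℝ) ^ 2 ≤
        ∫ v in (1 / ((w : ℝ) + 3 / 4))..(1 / ((w : ℝ) + 1 / 4)), f v := by
      refine intervalIntegral.integral_mono_on g2 (by simp) (hfc.intervalIntegrable _ _) ?_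
      intro v hv
      rw [hf]
      exact large hN hW hH (fun m hm => (hK m hm).1) hk.2 hv.1 hv.2
    refine le_trans ?_ g5
    rw [intervalIntegral.integral_const, smul_eq_mul, hc, mul_comm]
    refine mul_le_mul_of_nonneg_right ?_ (by positivity)
    have e3 : 1 / ((w : ℝ) + 1 / 4) - 1 / ((w : ℝ) + 3 / 4) =
        1 / (2 * (((w : ℝ) + 1 / 4) * ((w : ℝ) + 3 / 4))) := by
      have a1 : (w : ℝ) + 1 / 4 ≠ 0 := by positivity
      have a2 : (w : ℝ) + 3 / 4 ≠ 0 := by positivity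
      rw [div_sub_div _ _ a1 a2, div_eq_div_iff (by positivity) (by positivity)]
      ring
    rw [e3]
    refine one_div_le_one_div_of_le (by positivity) ?_
    have a1 : (w : ℝ) + 1 / 4 ≤ 2 * W := by linarith
    have a2 : (w : ℝ) + 3 / 4 ≤ 2 * W := by linarith
    have a3 := mul_le_mul a1 a2 (by positivity) (by positivity)
    nlinarith
  have hlow : (#(NH K W) : ℝ) * c ≤ ∑ k ∈ range W, ∫ v in a k..a (k + 1), f v := by
    have e1 : #(NH K W) ≤ #((range W).filter (fun k => 2 * W - 1 - k ∈ NH K W)) := by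
      refine card_le_card_of_injOn (fun w => 2 * W - 1 - w) ?_ ?_
      · intro w hw
        have hw' := (mem_NH.1 (mem_coe.1 hw)).1
        have e2 : 2 * W - 1 - (2 * W - 1 - w) = w := by omega
        rw [mem_coe, mem_filter, mem_range]
        refine ⟨show 2 * W - 1 - w < W by omega, ?_⟩
        show 2 * W - 1 - (2 * W - 1 - w) ∈ NH K W
        rw [e2]
        exact hw
      · intro w hw w' hw' h
        have h1 := (mem_NH.1 (mem_coe.1 hw)).1
        have h2 := (mem_NH.1 (mem_coe.1 hw')).1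
        simp only at h
        omega
    calc (#(NH K W) : ℝ) * c ≤ #((range W).filter (fun k => 2 * W - 1 - k ∈ NH K W)) * c :=
          mul_le_mul_of_nonneg_right (by exact_mod_cast e1) hc0
      _ = ∑ k ∈ (range W).filter (fun k => 2 * W - 1 - k ∈ NH K W), c := by
          rw [sum_const, nsmul_eq_mul]
      _ ≤ ∑ k ∈ (range W).filter (fun k => 2 * W - 1 - k ∈ NH K W), ∫ v in a k..a (k + 1), f v :=
          sum_le_sum hbig
      _ ≤ _ := sum_le_sum_of_subset_of_nonneg (filter_subset _ _) fun k hk _ => hpos k hk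
  rw [htel] at hlow
  have h1 := hlow.trans hup
  rw [hc] at h1
  obtain ⟨L, hL⟩ : ∃ L : ℝ, L = 1 + Real.log (8 * H * N : ℕ) := ⟨_, rfl⟩
  rw [← hL] at h1 ⊢
  have h2 : (#(NH K W) : ℝ) * #K * (#K * (H : ℝ) ^ 2 / (32 * (W : ℝ) ^ 2)) ≤
      64 * (W : ℝ) ^ 2 / N * (H : ℝ) ^ 2 * L * (#K * (H : ℝ) ^ 2 / (32 * (W : ℝ) ^ 2)) := by
    calc (#(NH K W) : ℝ) * #K * (#K * (H : ℝ) ^ 2 / (32 * (W : ℝ) ^ 2))
        = #(NH K W) * ((H * #K / 2 : ℝ) ^ 2 * (1 / (8 * (W : ℝ) ^ 2))) := by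
          field_simp
          ring
      _ ≤ #K * (H : ℝ) ^ 4 * (2 / N * L) := h1
      _ = 64 * (W : ℝ) ^ 2 / N * (H : ℝ) ^ 2 * L * (#K * (H : ℝ) ^ 2 / (32 * (W : ℝ) ^ 2)) := by
          field_simp
          ring
  exact le_of_mul_le_mul_right h2 (by positivity)

end Pool.Agent.Helper87.QS
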